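import Pool.Agent.X249.PP.MainIn

/-!
# The pooling problem with one quality and in-degrees at most two is NP-hard

The reduction is from INDEPENDENT SET. There is a pool for every vertex; it has an input of quality
`0`, an input of quality `1` and capacity `1` whose arc earns `1` per unit, and a private output
with bound `1` and capacity `1`. Every edge is an output with bound `0` and capacity `1`, with arcs
from the pools of its ends which earn `1` per unit. A pool which uses its input of quality `1`
cannot send flow to the edge outputs; so these pools, up to one vertex for every edge whose
output is not used, form an independent set.
-/

namespace Pool.Agent.Results.MP_975cd4_lc.InDegreeTwoNPHard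

open Pool.Agent.NPC Pool.Agent.X249.PP

/-- The pooling problem with one quality and all in-degrees at most two is NP-hard. -/
theorem result : NPHardP PoolingInTwo := hard_in.toNPHardP

end Pool.Agent.Results.MP_975cd4_lc.InDegreeTwoNPHard
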